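import Pool.Agent.H.MP_0427c5_lc.hf.Cls

/-!
# 3SUM-Indexing with random hash functions: counting
-/

namespace GGM3

open Finset
open scoped Classical

variable {K W : Type} [Field K] [Fintype K] [Fintype W]

/-- `b` is mapped into `X` by the map of the hash value `w` -/
def Hit (X : Finset K) (g : W → K × K) (b : K) (w : W) : Prop := (g w).1 ≠ 0 ∧ ev (g w) b ∈ X

/-- the number of elements of `B` which are hit -/
noncomputable def nhit (B X : Finset K) (g : W → K × K) (φ : K → W) : ℕ :=
  (B.filter fun b => Hit X g b (φ b)).card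

theorem nhit_eq (B X : Finset K) (g : W → K × K) (φ : K → W) :
    ∑ w, (hits (g w) X (yesC φ B (fun _ => True) w)).card = nhit B X g φ := by
  unfold nhit
  rw [Finset.card_eq_sum_card_fiberwise (s := B.filter fun b => Hit X g b (φ b)) (t := univ)
    (f := φ) fun z _ => Finset.mem_coe.mpr (Finset.mem_univ _)]
  refine Finset.sum_congr rfl fun w _ => ?_
  congr 1
  ext z
  unfold hits yesC Hit
  simp only [Finset.mem_filter]
  constructor
  · rintro ⟨⟨h1, h2, -⟩, h3, h4⟩
    rw [h2]
    exact ⟨⟨h1, h3, h4⟩, rfl⟩
  · rintro ⟨⟨h1, h3, h4⟩, h2⟩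
    rw [h2] at h3 h4
    exact ⟨⟨h1, h2, trivial⟩, h3, h4⟩

theorem nhit_mono {B X X' : Finset K} (hX : X ⊆ X') (g : W → K × K) (φ : K → W) :
    nhit B X g φ ≤ nhit B X' g φ := by
  refine Finset.card_le_card fun b hb => ?_
  rw [Finset.mem_filter] at hb ⊢
  exact ⟨hb.1, hb.2.1, hX hb.2.2⟩

theorem nhit_le (B X : Finset K) (g : W → K × K) (φ : K → W) : nhit B X g φ ≤ B.card :=
  Finset.card_filter_le _ _

/-- the functions which agree with `h` outside of `B` -/
noncomputable def ext (B : Finset K) (h : K → W) : Finset (K → W) :=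
  Fintype.piFinset fun x => if x ∈ B then univ else {h x}

theorem mem_ext {B : Finset K} {h φ : K → W} : φ ∈ ext B h ↔ ∀ x, x ∉ B → φ x = h x := by
  unfold ext
  rw [Fintype.mem_piFinset]
  constructor
  · intro h1 x hx
    have := h1 x
    rwa [if_neg hx, Finset.mem_singleton] at this
  · intro h1 x
    split_ifs with hx
    · exact Finset.mem_univ _
    · rw [Finset.mem_singleton]
      exact h1 x hx

theorem card_ext (B : Finset K) (h : K → W) : (ext B h).card = Fintype.card W ^ B.card := by
  unfold ext
  rw [Fintype.card_piFinset]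
  have h1 : ∀ x, (if x ∈ B then (univ : Finset W) else {h x}).card =
      if x ∈ B then Fintype.card W else 1 := by
    intro x
    split_ifs
    · exact Finset.card_univ
    · rfl
  rw [Finset.prod_congr rfl fun x _ => h1 x, Finset.prod_ite, Finset.prod_const_one, mul_one,
    Finset.prod_const]
  congr 2
  ext x
  simp

/-- the total number of possible hits -/
theorem sum_hit (B X : Finset K) (g : W → K × K) :
    ∑ b ∈ B, ((univ : Finset W).filter fun w => Hit X g b w).card ≤ Fintype.card W * X.card := by
  have h1 : ∑ b ∈ B, ((univ : Finset W).filter fun w => Hit X g b w).card =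
      ∑ w : W, (B.filter fun b => Hit X g b w).card := by
    simp only [Finset.card_filter]
    exact Finset.sum_comm
  rw [h1]
  calc ∑ w : W, (B.filter fun b => Hit X g b w).card ≤ ∑ _w : W, X.card := by
        refine Finset.sum_le_sum fun w _ => ?_
        refine Finset.card_le_card_of_injOn (fun b => ev (g w) b) ?_ ?_
        · intro b hb
          rw [Finset.mem_coe, Finset.mem_filter] at hb
          exact Finset.mem_coe.mpr hb.2.2
        · intro b hb b' _ he
          rw [Finset.mem_coe, Finset.mem_filter] at hb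
          simp only [ev] at he
          exact mul_left_cancel₀ hb.2.1 (add_right_cancel he)
    _ = _ := by rw [Finset.sum_const, Finset.card_univ, smul_eq_mul]

theorem exp_three : Real.exp 3 ≤ 32 := by
  have h1 : Real.exp 1 < 2.7182818286 := Real.exp_one_lt_d9
  have h2 : Real.exp 3 = Real.exp 1 ^ 3 := by
    rw [← Real.exp_nat_mul]
    norm_num
  rw [h2]
  have h3 : Real.exp 1 ^ 3 ≤ 3 ^ 3 := pow_le_pow_left₀ (Real.exp_pos 1).le (by linarith) 3
  norm_num at h3
  linarith

/-- the exponential moment -/
theorem rh_moment (B X : Finset K) (g : W → K × K) (h : K → W) :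
    ∑ φ ∈ ext B h, (4 : ℝ) ^ nhit B X g φ ≤ (Fintype.card W : ℝ) ^ B.card * 32 ^ X.card := by
  have hu : (0 : ℝ) < Fintype.card W := by
    have : Nonempty W := ⟨h 0⟩
    exact_mod_cast Fintype.card_pos
  have h1 : ∀ φ : K → W, (4 : ℝ) ^ nhit B X g φ =
      ∏ x, if x ∈ B ∧ Hit X g x (φ x) then (4 : ℝ) else 1 := by
    intro φ
    rw [Finset.prod_ite, Finset.prod_const_one, mul_one, Finset.prod_const]
    congr 1
    unfold nhit
    congr 1
    ext x
    simp
  rw [Finset.sum_congr rfl fun φ _ => h1 φ]
  unfold ext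
  have h2 := Finset.prod_univ_sum (κ := fun _ : K => W)
    (t := fun x => if x ∈ B then (univ : Finset W) else {h x})
    (f := fun x w => if x ∈ B ∧ Hit X g x w then (4 : ℝ) else 1)
  rw [← h2]
  have h3 : ∀ x, ∑ w ∈ (if x ∈ B then (univ : Finset W) else {h x}),
      (if x ∈ B ∧ Hit X g x w then (4 : ℝ) else 1) ≤
      if x ∈ B then (Fintype.card W : ℝ) *
        Real.exp (3 * (((univ : Finset W).filter fun w => Hit X g x w).card : ℝ) /
          Fintype.card W) else 1 := by
    intro x
    by_cases hx : x ∈ B
    · simp only [hx, if_true, true_and]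
      have h4 : ∑ w : W, (if Hit X g x w then (4 : ℝ) else 1) = Fintype.card W +
          3 * (((univ : Finset W).filter fun w => Hit X g x w).card : ℝ) := by
        have h5 : ∀ w : W, (if Hit X g x w then (4 : ℝ) else 1) =
            1 + 3 * (if Hit X g x w then 1 else 0) := by
          intro w
          split_ifs <;> norm_num
        rw [Finset.sum_congr rfl fun w _ => h5 w, Finset.sum_add_distrib, ← Finset.mul_sum,
          Finset.sum_boole, Finset.sum_const, Finset.card_univ, nsmul_eq_mul, mul_one]
      rw [h4]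
      have h6 := Real.add_one_le_exp
        (3 * (((univ : Finset W).filter fun w => Hit X g x w).card : ℝ) / Fintype.card W)
      have h7 := mul_le_mul_of_nonneg_left h6 hu.le
      refine le_trans (le_of_eq ?_) h7
      field_simp
      ring
    · simp only [hx, if_false, false_and, Finset.sum_singleton, le_refl]
  have h4 : ∏ x, ∑ w ∈ (if x ∈ B then (univ : Finset W) else {h x}),
      (if x ∈ B ∧ Hit X g x w then (4 : ℝ) else 1) ≤
      ∏ x : K, if x ∈ B then (Fintype.card W : ℝ) *
        Real.exp (3 * (((univ : Finset W).filter fun w => Hit X g x w).card : ℝ) /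
          Fintype.card W) else 1 := by
    refine Finset.prod_le_prod (fun x _ => Finset.sum_nonneg fun w _ => ?_) fun x _ => h3 x
    split_ifs <;> norm_num
  refine h4.trans ?_
  rw [Finset.prod_ite, Finset.prod_const_one, mul_one]
  have h5 : (univ.filter fun x => x ∈ B) = B := by
    ext x
    simp
  rw [h5, Finset.prod_mul_distrib, Finset.prod_const, ← Real.exp_sum]
  refine mul_le_mul_of_nonneg_left ?_ (pow_nonneg hu.le _)
  have h6 : ∑ x ∈ B, 3 * (((univ : Finset W).filter fun w => Hit X g x w).card : ℝ) /
      Fintype.card W ≤ 3 * X.card := by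
    have h7 : ((∑ b ∈ B, ((univ : Finset W).filter fun w => Hit X g b w).card : ℕ) : ℝ) ≤
        Fintype.card W * X.card := by exact_mod_cast sum_hit B X g
    rw [← Finset.sum_div, ← Finset.mul_sum, div_le_iff₀ hu]
    push_cast at h7
    linarith
  calc Real.exp (∑ x ∈ B, 3 * (((univ : Finset W).filter fun w => Hit X g x w).card : ℝ) /
      Fintype.card W) ≤ Real.exp (3 * X.card) := Real.exp_le_exp.mpr h6
    _ = Real.exp 3 ^ X.card := by rw [← Real.exp_nat_mul, mul_comm]
    _ ≤ _ := pow_le_pow_left₀ (Real.exp_pos 3).le exp_three _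

/-- few functions with many hits -/
theorem few_hit (B X : Finset K) (g : W → K × K) (h : K → W) (c : ℕ) :
    (((ext B h).filter fun φ => c < nhit B X g φ).card : ℝ) * 4 ^ (c + 1) ≤
      (Fintype.card W : ℝ) ^ B.card * 32 ^ X.card := by
  refine le_trans ?_ (rh_moment B X g h)
  calc (((ext B h).filter fun φ => c < nhit B X g φ).card : ℝ) * 4 ^ (c + 1)
      = ∑ _φ ∈ (ext B h).filter (fun φ => c < nhit B X g φ), (4 : ℝ) ^ (c + 1) := by
        rw [Finset.sum_const, nsmul_eq_mul]
    _ ≤ ∑ φ ∈ (ext B h).filter (fun φ => c < nhit B X g φ), (4 : ℝ) ^ nhit B X g φ := by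
        refine Finset.sum_le_sum fun φ hφ => ?_
        rw [Finset.mem_filter] at hφ
        exact pow_le_pow_right₀ (by norm_num) hφ.2
    _ ≤ _ := Finset.sum_le_sum_of_subset_of_nonneg (Finset.filter_subset _ _)
        fun φ _ _ => by positivity

end GGM3
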