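import Pool.Agent.H.MP_0427c5_lc.rh.Cnt

/-!
# 3SUM-Indexing with random hash functions: the union bound
-/

namespace GGM3

open Finset
open scoped Classical

variable {K W : Type} [Field K] [Fintype K] [Fintype W]

/-- the allowed number of hits -/
def thr (u L l x : ℕ) : ℕ := (x + u) * L + l + 3 * x + 4

/-- too many hits for some set and some maps -/
def Many (B : Finset K) (L l : ℕ) (φ : K → W) : Prop :=
  ∃ (x : ℕ) (X : Finset K), X.card ≤ x ∧ ∃ g : W → K × K,
    thr (Fintype.card W) L l x < nhit B X g φ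

theorem exists_cov (X : Finset K) (x : ℕ) (hx : X.card ≤ x) : ∃ e : Fin x → K,
    X ⊆ univ.image e := by
  refine ⟨fun i => X.toList.getD i 0, ?_⟩
  intro y hy
  rw [← Finset.mem_toList, List.mem_iff_getElem] at hy
  obtain ⟨i, hi, hiy⟩ := hy
  have hi' : i < x := by
    rw [Finset.length_toList] at hi
    omega
  rw [Finset.mem_image]
  refine ⟨⟨i, hi'⟩, Finset.mem_univ _, ?_⟩
  simp only
  rw [List.getD_eq_getElem _ _ hi, hiy]

theorem few_many (B : Finset K) (h : K → W) (L l : ℕ) (hL : Fintype.card K ≤ 2 ^ L) :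
    (((ext B h).filter fun φ => Many B L l φ).card : ℝ) * 2 ^ (l + 9) ≤
      (Fintype.card W : ℝ) ^ B.card := by
  obtain ⟨u, hu⟩ : ∃ u, u = Fintype.card W := ⟨_, rfl⟩
  obtain ⟨q, hq⟩ : ∃ q, q = Fintype.card K := ⟨_, rfl⟩
  obtain ⟨F, hF⟩ : ∃ F : (x : ℕ) → (Fin x → K) → (W → K × K) → Finset (K → W), ∀ x e g, F x e g =
      (ext B h).filter fun φ => thr u L l x < nhit B (univ.image e) g φ :=
    ⟨_, fun _ _ _ => rfl⟩
  have hsub : ((ext B h).filter fun φ => Many B L l φ) ⊆
      (Finset.range B.card).biUnion fun x => univ.biUnion fun e : Fin x → K =>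
        univ.biUnion fun g : W → K × K => F x e g := by
    intro φ hφ
    rw [Finset.mem_filter] at hφ
    obtain ⟨hφ, x, X, hX, g, hg⟩ := hφ
    obtain ⟨e, he⟩ := exists_cov X x hX
    have h1 := nhit_le B X g φ
    have h2 : x ≤ thr u L l x := by
      unfold thr
      omega
    rw [← hu] at hg
    rw [Finset.mem_biUnion]
    refine ⟨x, Finset.mem_range.mpr (by omega), ?_⟩
    rw [Finset.mem_biUnion]
    refine ⟨e, Finset.mem_univ _, ?_⟩
    rw [Finset.mem_biUnion]
    refine ⟨g, Finset.mem_univ _, ?_⟩
    rw [hF, Finset.mem_filter]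
    exact ⟨hφ, lt_of_lt_of_le hg (nhit_mono he g φ)⟩
  have hone : ∀ x e g, ((F x e g).card : ℝ) ≤
      (u : ℝ) ^ B.card * 32 ^ x / 4 ^ (thr u L l x + 1) := by
    intro x e g
    rw [le_div_iff₀ (by positivity), hF]
    refine (few_hit B (univ.image e) g h (thr u L l x)).trans ?_
    rw [← hu]
    refine mul_le_mul_of_nonneg_left ?_ (by positivity)
    refine pow_le_pow_right₀ (by norm_num) ?_
    refine Finset.card_image_le.trans (le_of_eq ?_)
    rw [Finset.card_univ, Fintype.card_fin]
  have hx : ∀ x, (((univ.biUnion fun e : Fin x → K =>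
      univ.biUnion fun g : W → K × K => F x e g).card : ℕ) : ℝ) ≤
      (u : ℝ) ^ B.card * (1 / 2) ^ (l + 10) * (1 / 2) ^ x := by
    intro x
    have h1 : (((univ.biUnion fun e : Fin x → K =>
        univ.biUnion fun g : W → K × K => F x e g).card : ℕ) : ℝ) ≤
        ∑ e : Fin x → K, ∑ g : W → K × K, ((F x e g).card : ℝ) := by
      have h2 : (univ.biUnion fun e : Fin x → K =>
          univ.biUnion fun g : W → K × K => F x e g).card ≤
          ∑ e : Fin x → K, ∑ g : W → K × K, (F x e g).card :=
        Finset.card_biUnion_le.trans (Finset.sum_le_sum fun e _ => Finset.card_biUnion_le)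
      exact_mod_cast h2
    refine h1.trans ?_
    calc ∑ e : Fin x → K, ∑ g : W → K × K, ((F x e g).card : ℝ)
        ≤ ∑ _e : Fin x → K, ∑ _g : W → K × K,
            ((u : ℝ) ^ B.card * 32 ^ x / 4 ^ (thr u L l x + 1)) :=
          Finset.sum_le_sum fun e _ => Finset.sum_le_sum fun g _ => hone x e g
      _ = (q : ℝ) ^ x * ((q : ℝ) * q) ^ u *
            ((u : ℝ) ^ B.card * 32 ^ x / 4 ^ (thr u L l x + 1)) := by
          rw [Finset.sum_const, Finset.sum_const, Finset.card_univ, Finset.card_univ,
            Fintype.card_fun, Fintype.card_fun, Fintype.card_fin, Fintype.card_prod, ← hq, ← hu,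
            nsmul_eq_mul, nsmul_eq_mul]
          push_cast
          ring
      _ = (u : ℝ) ^ B.card * ((q : ℝ) ^ x * ((q : ℝ) * q) ^ u * 32 ^ x /
            4 ^ (thr u L l x + 1)) := by ring
      _ ≤ (u : ℝ) ^ B.card * ((1 / 2) ^ (l + 10) * (1 / 2) ^ x) := by
          refine mul_le_mul_of_nonneg_left ?_ (by positivity)
          rw [div_le_iff₀ (by positivity)]
          have hqL : (q : ℝ) ≤ 2 ^ L := by
            rw [hq]
            exact_mod_cast hL
          have e1 : (q : ℝ) ^ x * ((q : ℝ) * q) ^ u * 32 ^ x ≤ 2 ^ (L * x + 2 * L * u + 5 * x) := by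
            calc (q : ℝ) ^ x * ((q : ℝ) * q) ^ u * 32 ^ x
                ≤ (2 ^ L) ^ x * (2 ^ L * 2 ^ L) ^ u * (2 ^ 5) ^ x := by
                  refine mul_le_mul (mul_le_mul (pow_le_pow_left₀ (by positivity) hqL x)
                    (pow_le_pow_left₀ (by positivity) (mul_le_mul hqL hqL (by positivity)
                      (by positivity)) u) (by positivity) (by positivity)) (le_of_eq (by norm_num))
                    (by positivity) (by positivity)
              _ = _ := by
                  rw [← pow_add, ← pow_mul, ← pow_mul, ← pow_mul, ← pow_add, ← pow_add]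
                  congr 1
                  ring
          refine e1.trans ?_
          have e2 : (4 : ℝ) ^ (thr u L l x + 1) = 2 ^ (2 * (thr u L l x + 1)) := by
            rw [pow_mul]
            norm_num
          have e3 : 2 * (thr u L l x + 1) = L * x + (L * x + 2 * L * u + 5 * x) + l +
              ((l + 10) + x) := by
            unfold thr
            ring
          rw [e2, e3]
          have e4 : (1 / 2 : ℝ) ^ (l + 10) * (1 / 2) ^ x *
              2 ^ (L * x + (L * x + 2 * L * u + 5 * x) + l + ((l + 10) + x)) =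
              2 ^ (L * x + (L * x + 2 * L * u + 5 * x) + l) := by
            rw [← pow_add, pow_add (2 : ℝ) (L * x + (L * x + 2 * L * u + 5 * x) + l), one_div,
              inv_pow]
            field_simp
          rw [e4]
          exact pow_le_pow_right₀ (by norm_num) (by omega)
      _ = _ := by ring
  have hsum : ∑ x ∈ Finset.range B.card, (1 / 2 : ℝ) ^ x ≤ 2 := by
    have h1 := sum_geometric_two_le B.card
    exact h1
  have htot : (((ext B h).filter fun φ => Many B L l φ).card : ℝ) ≤
      (u : ℝ) ^ B.card * (1 / 2) ^ (l + 10) * 2 := by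
    calc (((ext B h).filter fun φ => Many B L l φ).card : ℝ)
        ≤ ((∑ x ∈ Finset.range B.card, (univ.biUnion fun e : Fin x → K =>
            univ.biUnion fun g : W → K × K => F x e g).card : ℕ) : ℝ) := by
          exact_mod_cast (Finset.card_le_card hsub).trans Finset.card_biUnion_le
      _ = ∑ x ∈ Finset.range B.card, (((univ.biUnion fun e : Fin x → K =>
            univ.biUnion fun g : W → K × K => F x e g).card : ℕ) : ℝ) := by push_cast; rfl
      _ ≤ ∑ x ∈ Finset.range B.card, (u : ℝ) ^ B.card * (1 / 2) ^ (l + 10) * (1 / 2) ^ x :=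
          Finset.sum_le_sum fun x _ => hx x
      _ = (u : ℝ) ^ B.card * (1 / 2) ^ (l + 10) * ∑ x ∈ Finset.range B.card, (1 / 2 : ℝ) ^ x := by
          rw [Finset.mul_sum]
      _ ≤ _ := mul_le_mul_of_nonneg_left hsum (by positivity)
  rw [← hu]
  calc (((ext B h).filter fun φ => Many B L l φ).card : ℝ) * 2 ^ (l + 9)
      ≤ (u : ℝ) ^ B.card * (1 / 2) ^ (l + 10) * 2 * 2 ^ (l + 9) :=
        mul_le_mul_of_nonneg_right htot (by positivity)
    _ = (u : ℝ) ^ B.card := by
        rw [one_div, inv_pow, pow_succ (2 : ℝ) (l + 9)]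
        field_simp

/-- families of functions -/
theorem few_fam {M : ℕ} (B : Finset K) (h : Fin M → K → W) (L l : ℕ)
    (hL : Fintype.card K ≤ 2 ^ L) (hl : M ≤ 2 ^ l) :
    512 * ((Fintype.piFinset fun s => ext B (h s)).filter fun f =>
      ∃ s, Many B L l (f s)).card ≤ Fintype.card W ^ (M * B.card) := by
  obtain ⟨E, hE⟩ : ∃ E : Fin M → Finset (K → W), ∀ s, E s = ext B (h s) := ⟨_, fun _ => rfl⟩
  obtain ⟨Bd, hBd⟩ : ∃ Bd : Fin M → Finset (K → W), ∀ s, Bd s =
      (ext B (h s)).filter fun φ => Many B L l φ := ⟨_, fun _ => rfl⟩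
  obtain ⟨N, hN⟩ : ∃ N : ℕ, N = Fintype.card W ^ B.card := ⟨_, rfl⟩
  have hEc : ∀ s, (E s).card = N := fun s => by rw [hE, card_ext, hN]
  have hsub : ((Fintype.piFinset fun s => ext B (h s)).filter fun f =>
      ∃ s, Many B L l (f s)) ⊆ univ.biUnion fun s : Fin M =>
        Fintype.piFinset (Function.update E s (Bd s)) := by
    intro f hf
    rw [Finset.mem_filter, Fintype.mem_piFinset] at hf
    obtain ⟨hf, s, hs⟩ := hf
    rw [Finset.mem_biUnion]
    refine ⟨s, Finset.mem_univ _, ?_⟩
    rw [Fintype.mem_piFinset]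
    intro s'
    by_cases hss : s' = s
    · rw [hss, Function.update_self, hBd, Finset.mem_filter]
      exact ⟨hf s, hs⟩
    · rw [Function.update_of_ne hss, hE]
      exact hf s'
  have hone : ∀ s : Fin M, ((Fintype.piFinset (Function.update E s (Bd s))).card : ℝ) *
      2 ^ (l + 9) ≤ (N : ℝ) ^ M := by
    intro s
    rw [Fintype.card_piFinset]
    have h1 : ∀ s', (Function.update E s (Bd s) s').card =
        Function.update (fun s' => (E s').card) s (Bd s).card s' := by
      intro s'
      by_cases hss : s' = s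
      · rw [hss, Function.update_self, Function.update_self]
      · rw [Function.update_of_ne hss, Function.update_of_ne hss]
    rw [Finset.prod_congr rfl fun s' _ => h1 s', Finset.prod_update_of_mem (Finset.mem_univ s),
      Finset.prod_congr rfl fun s' _ => hEc s', Finset.prod_const]
    have h2 : (univ \ {s} : Finset (Fin M)).card + 1 = M := by
      have h3 := Finset.card_sdiff_add_card_eq_card (Finset.subset_univ ({s} : Finset (Fin M)))
      rwa [Finset.card_singleton, Finset.card_univ, Fintype.card_fin] at h3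
    have h4 := few_many B (h s) L l hL
    have h5 : ((Bd s).card : ℝ) * 2 ^ (l + 9) ≤ N := by
      rw [hBd, hN]
      push_cast
      exact h4
    push_cast
    calc ((Bd s).card : ℝ) * (N : ℝ) ^ (univ \ {s} : Finset (Fin M)).card * 2 ^ (l + 9)
        = (((Bd s).card : ℝ) * 2 ^ (l + 9)) * (N : ℝ) ^ (univ \ {s} : Finset (Fin M)).card := by
          ring
      _ ≤ N * (N : ℝ) ^ (univ \ {s} : Finset (Fin M)).card :=
          mul_le_mul_of_nonneg_right h5 (by positivity)
      _ = (N : ℝ) ^ M := by
          rw [← pow_succ', h2]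
  have htot : (((Fintype.piFinset fun s => ext B (h s)).filter fun f =>
      ∃ s, Many B L l (f s)).card : ℝ) * 2 ^ (l + 9) ≤ 2 ^ l * (N : ℝ) ^ M := by
    calc (((Fintype.piFinset fun s => ext B (h s)).filter fun f =>
          ∃ s, Many B L l (f s)).card : ℝ) * 2 ^ (l + 9)
        ≤ ((∑ s : Fin M, (Fintype.piFinset (Function.update E s (Bd s))).card : ℕ) : ℝ) *
            2 ^ (l + 9) := by
          refine mul_le_mul_of_nonneg_right ?_ (by positivity)
          exact_mod_cast (Finset.card_le_card hsub).trans Finset.card_biUnion_le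
      _ = ∑ s : Fin M, ((Fintype.piFinset (Function.update E s (Bd s))).card : ℝ) *
            2 ^ (l + 9) := by
          push_cast
          rw [Finset.sum_mul]
      _ ≤ ∑ _s : Fin M, (N : ℝ) ^ M := Finset.sum_le_sum fun s _ => hone s
      _ = (M : ℝ) * (N : ℝ) ^ M := by
          rw [Finset.sum_const, Finset.card_univ, Fintype.card_fin, nsmul_eq_mul]
      _ ≤ 2 ^ l * (N : ℝ) ^ M := by
          refine mul_le_mul_of_nonneg_right ?_ (by positivity)
          exact_mod_cast hl
  have hfin : 512 * (((Fintype.piFinset fun s => ext B (h s)).filter fun f =>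
      ∃ s, Many B L l (f s)).card : ℝ) ≤ (N : ℝ) ^ M := by
    have h1 : (0 : ℝ) < 2 ^ l := by positivity
    refine le_of_mul_le_mul_left ?_ h1
    calc (2 : ℝ) ^ l * (512 * (((Fintype.piFinset fun s => ext B (h s)).filter fun f =>
          ∃ s, Many B L l (f s)).card : ℝ))
        = (((Fintype.piFinset fun s => ext B (h s)).filter fun f =>
          ∃ s, Many B L l (f s)).card : ℝ) * 2 ^ (l + 9) := by
          rw [pow_add]
          norm_num
          ring
      _ ≤ _ := htot
  have hNM : N ^ M = Fintype.card W ^ (M * B.card) := by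
    rw [hN, ← pow_mul, mul_comm]
  rw [← hNM]
  exact_mod_cast hfin

end GGM3
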