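import Pool.Agent.H.MP_0427c5_lc.rh.Core

/-!
# 3SUM-Indexing with random hash functions: the theorem
-/

namespace GGM3

open Finset
open scoped Classical

variable {K W : Type} [Field K] [Fintype K] [Fintype W]

/-- the families which agree with `h` outside of `B` -/
noncomputable def fams (B : Finset K) {M : ℕ} (h : Fin M → K → W) : Finset (Fin M → K → W) :=
  univ.filter fun f => ∀ s x, x ∉ B → f s x = h s x

theorem fams_eq (B : Finset K) {M : ℕ} (h : Fin M → K → W) :
    fams B h = Fintype.piFinset fun s => ext B (h s) := by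
  ext f
  unfold fams
  rw [Finset.mem_filter, Fintype.mem_piFinset]
  constructor
  · intro h1 s
    exact mem_ext.mpr (h1.2 s)
  · intro h1
    exact ⟨Finset.mem_univ _, fun s => mem_ext.mp (h1 s)⟩

theorem card_fams (B : Finset K) {M : ℕ} (h : Fin M → K → W) :
    (fams B h).card = Fintype.card W ^ (M * B.card) := by
  rw [fams_eq, Fintype.card_piFinset, Finset.prod_congr rfl fun s _ => card_ext B (h s),
    Finset.prod_const, Finset.card_univ, Fintype.card_fin, ← pow_mul, mul_comm]

theorem rh_result (B : Finset K) {M : ℕ} (h : Fin M → K → W)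
    (hlarge : ∀ s w, B.card ≤ (univ.filter fun x => x ∉ B ∧ h s x = w).card)
    (Q : (Fin M → K → W) → Prop)
    (hQ : ∀ f : Fin M → K → W, (∀ s w, B.card ≤ (noC (f s) B w).card) →
      (∀ s, ¬ Many B (Nat.clog 2 (Fintype.card K)) (Nat.clog 2 M) (f s)) → Q f) :
    512 * ((fams B h).filter fun f => ¬ Q f).card ≤ (fams B h).card := by
  rw [card_fams]
  refine le_trans (Nat.mul_le_mul_left _ (Finset.card_le_card ?_)) (few_fam B h
    (Nat.clog 2 (Fintype.card K)) (Nat.clog 2 M) (Nat.le_pow_clog (by norm_num) _)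
    (Nat.le_pow_clog (by norm_num) _))
  intro f hf
  rw [Finset.mem_filter] at hf ⊢
  refine ⟨by rw [← fams_eq]; exact hf.1, ?_⟩
  by_contra hcon
  push Not at hcon
  apply hf.2
  refine hQ f ?_ hcon
  have hff : ∀ s x, x ∉ B → f s x = h s x := by
    have := hf.1
    unfold fams at this
    rw [Finset.mem_filter] at this
    exact this.2
  intro s w
  refine (hlarge s w).trans (Finset.card_le_card fun x hx => ?_)
  rw [Finset.mem_filter] at hx
  rw [mem_noC]
  exact ⟨hx.2.1, by rw [hff s x hx.2.1]; exact hx.2.2⟩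

end GGM3
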